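import Pool.Agent.Helper12.MA.StD
import Pool.Agent.Helper12.MA.Lib

/-!
# Project MA, module TOC
-/

set_option autoImplicit false

namespace Pool.Agent.Helper27.MA

open Pool.Agent.Helper12.MA
open Pool.Agent.Helper51.AJ (IsMinor Planar Apex ExMinor Con Tch)
open Pool.Agent.Helper12.NK (rst Kc add cnt Pcy IsFace Cof plus NCr)

/-- on an induced cycle two adjacent vertices lie on an arc of length one, everything on the other arc -/
private lemma ncr_edge {V : Type} (T : SimpleGraph V) (U : Set V) (m : ℕ) (c : ZMod m → V) (hP : Pcy T U m c)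
    (a b : V) (ha : a ∈ Set.range c) (hb : b ∈ Set.range c) (hab : T.Adj a b) (A : Set V) (hA : A ⊆ Set.range c) :
    NCr m c A {a, b} := by
  obtain ⟨h3, -, -, hadj, -⟩ := hP
  have : NeZero m := ⟨by omega⟩
  have key : ∀ p : ZMod m, ∀ B : Set V, (∀ x ∈ B, x = c p ∨ x = c (p + 1)) → NCr m c A B := by
    intro p B hB
    refine ⟨p + 1, m - 1, by omega, ?_, ?_⟩
    · intro x hx
      obtain ⟨q, rfl⟩ := hA hx
      refine ⟨(q - (p + 1)).val, ?_, ?_⟩
      · have := ZMod.val_lt (q - (p + 1))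
        omega
      · rw [ZMod.natCast_zmod_val]
        congr 1
        ring
    · intro x hx
      rcases hB x hx with rfl | rfl
      · refine ⟨m - 1, le_refl _, by omega, ?_⟩
        congr 1
        rw [Nat.cast_sub (by omega), ZMod.natCast_self]
        push_cast
        ring
      · refine ⟨m, by omega, le_refl _, ?_⟩
        rw [ZMod.natCast_self, add_zero]
  obtain ⟨i, rfl⟩ := ha
  obtain ⟨j, rfl⟩ := hb
  rcases (hadj i j).1 hab with rfl | rfl
  · refine key i _ ?_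
    rintro x (rfl | rfl)
    · exact Or.inl rfl
    · exact Or.inr rfl
  · refine key j _ ?_
    rintro x (rfl | rfl)
    · exact Or.inr rfl
    · exact Or.inl rfl

theorem hTOC : StEDG -> StBAS -> StTOC := by
  intro hE hB V _ G s x y σ a b Γ h hk hp hF hy hN
  obtain ⟨hys, hyσ, hya, hyb, hsσ, hsa, hsb, hσa, hσb, hab⟩ := h.n1
  have hxy : x ≠ y := G.ne_of_adj ((h.nb y).2 (Or.inl rfl))
  have hxs : x ≠ s := G.ne_of_adj ((h.nb s).2 (Or.inr (Or.inl rfl)))
  have hxσ : x ≠ σ := G.ne_of_adj ((h.nb σ).2 (Or.inr (Or.inr (Or.inl rfl))))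
  have hxa : x ≠ a := G.ne_of_adj ((h.nb a).2 (Or.inr (Or.inr (Or.inr (Or.inl rfl)))))
  have hxb : x ≠ b := G.ne_of_adj ((h.nb b).2 (Or.inr (Or.inr (Or.inr (Or.inr rfl)))))
  have hσU : σ ∉ ({x, s, σ}ᶜ : Set V) := by simp
  have hxU : x ∉ ({x, s, σ}ᶜ : Set V) := by simp
  have hpl : Planar (add (rst (ae G a b) {x, s, σ}ᶜ) σ Γ) :=
    nINS V (ae G a b) {x, s, σ}ᶜ Γ Γ σ hk hp hF (le_refl _) hσU
  have hΓU : Γ ⊆ ({x, s, σ}ᶜ : Set V) := by
    obtain ⟨m, c, hc, rfl⟩ := hF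
    exact hc.2.2.1
  have haΓ : a ∈ Γ := hN (Or.inr (Or.inl rfl))
  have hbΓ : b ∈ Γ := hN (Or.inr (Or.inr rfl))
  have h3 : 3 ≤ Γ.ncard := by
    have h1 : ({a, b, y} : Set V).ncard = 3 := Set.ncard_eq_three.2 ⟨a, b, y, hab, hya.symm, hyb.symm, rfl⟩
    rw [← h1]
    refine Set.ncard_le_ncard ?_ (Set.toFinite _)
    rintro z (rfl | rfl | rfl)
    · exact haΓ
    · exact hbΓ
    · exact hy
  obtain ⟨m, c, hP, hNc, hAll⟩ := nTUT V (ae G a b) {x, s, σ}ᶜ Γ σ hk hΓU h3 hσU hpl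
  have hTab : (ae G a b).Adj a b := Or.inr ⟨hab, Or.inl ⟨rfl, rfl⟩⟩
  have hA : ({c | G.Adj σ c} \ {x, s}) ∪ {y} ⊆ Set.range c := by
    rintro z (hz | hz)
    · exact hNc (hN (Or.inl hz))
    · rw [Set.mem_singleton_iff] at hz
      rw [hz]
      exact hNc hy
  have hBr : ({a, b} : Set V) ⊆ Set.range c := by
    rintro z (rfl | rfl)
    · exact hNc haΓ
    · exact hNc hbΓ
  have hNCr := ncr_edge (ae G a b) {x, s, σ}ᶜ m c hP a b (hNc haΓ) (hNc hbΓ) hTab _ hA
  have hpl2 := hAll _ _ hA hBr hNCr σ x hσU hxU hxσ.symm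
  have hle : rst (ae (dl G x y) σ y) {s}ᶜ ≤
      add (add (rst (ae G a b) {x, s, σ}ᶜ) σ (({c | G.Adj σ c} \ {x, s}) ∪ {y})) x (insert σ {a, b}) := by
    rintro u v ⟨huv, hu, hv⟩
    have hus : u ≠ s := hu
    have hvs : v ≠ s := hv
    rcases huv with ⟨hG, h1, h2⟩ | ⟨hne, ⟨rfl, rfl⟩ | ⟨rfl, rfl⟩⟩
    · have hnuv : u ≠ v := G.ne_of_adj hG
      by_cases hux : u = x
      · subst hux
        refine Or.inr (Or.inl ⟨rfl, ?_, hnuv.symm⟩)
        rcases (h.nb v).1 hG with h' | h' | h' | h' | h'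
        · exact absurd ⟨rfl, h'⟩ h1
        · exact absurd h' hvs
        · exact Or.inl h'
        · exact Or.inr (Or.inl h')
        · exact Or.inr (Or.inr h')
      by_cases hvx : v = x
      · subst hvx
        refine Or.inr (Or.inr ⟨rfl, ?_, hnuv⟩)
        rcases (h.nb u).1 hG.symm with h' | h' | h' | h' | h'
        · exact absurd ⟨h', rfl⟩ h2
        · exact absurd h' hus
        · exact Or.inl h'
        · exact Or.inr (Or.inl h')
        · exact Or.inr (Or.inr h')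
      by_cases huσ : u = σ
      · subst huσ
        refine Or.inl (Or.inr (Or.inl ⟨rfl, Or.inl ⟨hG, ?_⟩, hnuv.symm⟩))
        rintro (h' | h')
        · exact hvx h'
        · exact hvs h'
      by_cases hvσ : v = σ
      · subst hvσ
        refine Or.inl (Or.inr (Or.inr ⟨rfl, Or.inl ⟨hG.symm, ?_⟩, hnuv⟩))
        rintro (h' | h')
        · exact hux h'
        · exact hus h'
      · refine Or.inl (Or.inl ⟨Or.inl hG, ?_, ?_⟩)
        · rintro (h' | h' | h')
          · exact hux h'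
          · exact hus h'
          · exact huσ h'
        · rintro (h' | h' | h')
          · exact hvx h'
          · exact hvs h'
          · exact hvσ h'
    · exact Or.inl (Or.inr (Or.inl ⟨rfl, Or.inr rfl, hne.symm⟩))
    · exact Or.inl (Or.inr (Or.inr ⟨rfl, Or.inr rfl, hne⟩))
  have hpl3 : Planar (rst (ae (dl G x y) σ y) {s}ᶜ) :=
    (nKCA V G {s}ᶜ).2.2.2.2.2.1 _ _ hle hpl2
  have hPn : Pn (dl G x y) {s}ᶜ := ⟨(hB V G h.bh).2.2.2.2.1 s x y, h.sv.2.2⟩
  obtain ⟨F, hF', h1, h2⟩ := (hE V (dl G x y) {s}ᶜ σ y s hPn hsσ.symm hys hyσ.symm (fun hh => hh rfl)).1 hpl3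
  exact h.nc ⟨F, hF', h2, h1⟩

end Pool.Agent.Helper27.MA
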